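import Pool.Agent.Y223.G.Stm10
import Pool.Agent.Y25.G.Base
import Pool.Agent.Y614.GM.Gmog
import Pool.Agent.Y564.G.Gfr

/-!
Project H: the generic fibre, for Weil restrictions with wild inertia of prime order.
-/

set_option autoImplicit false
set_option linter.unusedSectionVars false
set_option linter.overlappingInstances false

namespace Pool.Agent.Y532.H

open Pool.Agent.Y223.G
open Pool.Agent.Y25.G (MN_mul MN_one MN_zero MN_succ MN_z FS_pow OL_alg OL_inv mem_res)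
open Pool.Agent.Y614.GM (TT SG TT_mul TT_one TT_le le_TT prod_TT CF CF_OL CF_gen CF_ind SG_pow)

section norm

variable {k O K G : Type} [CommRing k] [IsDomain k] [CommRing O] [IsDomain O]
    [IsDedekindDomain O] [Field K] [Group G] [Finite G] [Algebra k O] [Algebra O K] [Algebra k K]
    [IsScalarTower k O K] {ρ : G →* (K ≃ₐ[k] K)} {T : G →* (O ≃ₐ[k] O)}

/-- A nonzero constant in the norm of an element of the base. -/
lemma exists_norm (hG : GE k O K G ρ T) {b : O} (hb : b ≠ 0) : ∃ (c : k) (r : O), c ≠ 0 ∧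
    algebraMap k O c = b * r := by
  classical
  cases nonempty_fintype G
  obtain ⟨c, hc⟩ := hG.fix _ fun g => Pool.Agent.Y564.G.nm_act T g b
  refine ⟨c, ∏ g ∈ Finset.univ.erase 1, T g b, ?_, ?_⟩
  · rintro rfl
    rw [map_zero] at hc
    obtain ⟨g, -, hg⟩ := Finset.prod_eq_zero_iff.1 hc.symm
    exact hb ((map_eq_zero_iff _ (T g).injective).1 hg)
  · rw [hc, Pool.Agent.Y564.G.nm_mul]

lemma s_ne (hG : GE k O K G ρ T) {s : k} (hs : s ≠ 0) : algebraMap k K s ≠ 0 :=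
  (map_ne_zero_iff _ hG.injk).2 hs

end norm

/-- **Descent of forms.** -/
theorem dsc {k O M Y K G Ω : Type} [CommRing k] [IsDomain k]
    [CommRing O] [IsDomain O] [IsDedekindDomain O] [Field M] [Field Y] [Field K] [Group G]
    [Finite G] [MulAction G Ω] [Algebra k O] [Algebra O K] [Algebra k K]
    [IsScalarTower k O K] [Algebra M K] [Algebra k Y] {ι : Y →ₐ[k] K} {ρ : G →* (K ≃ₐ[k] K)}
    {T : G →* (O ≃ₐ[k] O)} {m : ℕ} {z : Ω → Fin (m + 1) → K} (hG : GHE k O M Y K G Ω ι ρ T m z)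
    (N : Submodule k Y) (y : Y) (hy : ι y ∈ Submodule.span M (ι '' (N : Set Y))) :
    y ∈ sat N := by
  classical
  cases nonempty_fintype G
  obtain ⟨c, hc, hcy⟩ := Pool.Agent.Y185.G.span_clear (O := O) hG.lf _ _ hy
  -- the norm of the denominator
  obtain ⟨r, w, hr0, hr⟩ := exists_norm hG.toGE hc
  have hry : algebraMap k O r • ι y ∈ Submodule.span O (ι '' (N : Set Y)) := by
    rw [hr, mul_comm, mul_smul]
    exact Submodule.smul_mem _ _ hcy
  -- the trace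
  have key : ∀ x ∈ Submodule.span O (ι '' (N : Set Y)), ∀ a : O,
      ∃ n ∈ N, ∑ g, ρ g (a • x) = ι n := by
    intro x hx
    induction hx using Submodule.span_induction with
    | mem x hx =>
      intro a
      obtain ⟨n, hn, rfl⟩ := hx
      obtain ⟨b, hb⟩ := hG.fix _ fun g => Pool.Agent.Y564.G.tr_act T g a
      refine ⟨b • n, N.smul_mem b hn, ?_⟩
      have h1 : ∀ g ∈ (Finset.univ : Finset G),
          ρ g (a • ι n) = algebraMap O K (T g a) * ι n := by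
        intro g _
        rw [Algebra.smul_def, map_mul, hG.com, (hG.fixK (ι n)).2 ⟨n, rfl⟩ g]
      rw [Finset.sum_congr rfl h1, ← Finset.sum_mul, ← map_sum, ← hb, map_smul, Algebra.smul_def,
        ← IsScalarTower.algebraMap_apply k O K]
    | zero =>
      intro a
      refine ⟨0, N.zero_mem, ?_⟩
      rw [smul_zero, map_zero]
      exact Finset.sum_eq_zero fun g _ => map_zero (ρ g)
    | add x y _ _ hx hy =>
      intro a
      obtain ⟨n, hn, hx⟩ := hx a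
      obtain ⟨n', hn', hy⟩ := hy a
      refine ⟨n + n', N.add_mem hn hn', ?_⟩
      rw [map_add, ← hx, ← hy, ← Finset.sum_add_distrib]
      refine Finset.sum_congr rfl fun g _ => ?_
      rw [smul_add, map_add]
    | smul b x _ hx =>
      intro a
      obtain ⟨n, hn, hx⟩ := hx (a * b)
      exact ⟨n, hn, by rw [← mul_smul]; exact hx⟩
  obtain ⟨n, hn, h⟩ := key _ hry 1
  refine ⟨(Nat.card G : k) * r, mul_ne_zero ?_ hr0, ?_⟩
  · intro h0
    apply hG.cg
    have := congrArg (algebraMap k K) h0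
    rwa [map_natCast, map_zero] at this
  · have h2 : ((Nat.card G : k) * r) • y = n := by
      apply ι.toRingHom.injective
      show ι (((Nat.card G : k) * r) • y) = ι n
      rw [← h]
      have h3 : ∀ g ∈ (Finset.univ : Finset G), ρ g ((1 : O) • algebraMap k O r • ι y) =
          algebraMap k K r * ι y := by
        intro g _
        rw [one_smul, Algebra.smul_def, ← IsScalarTower.algebraMap_apply k O K, map_mul,
          AlgEquiv.commutes, (hG.fixK (ι y)).2 ⟨y, rfl⟩ g]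
      rw [Finset.sum_congr rfl h3, Finset.sum_const, Finset.card_univ, map_smul,
        Algebra.smul_def, map_mul, map_natCast, nsmul_eq_mul, mul_assoc, Nat.card_eq_fintype_card]
    rw [h2]
    exact hn

section gen

variable {k O M Y K G Ω : Type} [CommRing k] [IsDomain k]
  [CommRing O] [IsDomain O] [IsDedekindDomain O] [Field M] [Field Y] [Field K] [Group G]
  [Finite G] [Fintype Ω] [MulAction G Ω] [Algebra k O] [Algebra O K] [Algebra k K]
  [IsScalarTower k O K] [Algebra M K] [Algebra k Y] {ι : Y →ₐ[k] K} {ρ : G →* (K ≃ₐ[k] K)}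
  {T : G →* (O ≃ₐ[k] O)} {m : ℕ} {z : Ω → Fin (m + 1) → K}

lemma k_M (hG : GHE k O M Y K G Ω ι ρ T m z) (c : k) :
    ∃ x : M, algebraMap M K x = algebraMap k K c := by
  obtain ⟨x, hx⟩ := hG.lo (algebraMap k O c)
  exact ⟨x, by rw [hx, ← IsScalarTower.algebraMap_apply k O K]⟩

lemma OL_M (hG : GHE k O M Y K G Ω ι ρ T m z) {s : k} (hs : s ≠ 0) {g : K}
    (hg : g ∈ OL O (K := K) s) : ∃ x : M, algebraMap M K x = g := by
  obtain ⟨n, y, h⟩ := hg
  obtain ⟨a, ha⟩ := k_M hG s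
  obtain ⟨b, hb⟩ := hG.lo y
  have hs0 : algebraMap k K s ≠ 0 := s_ne hG.toGE hs
  refine ⟨(a ^ n)⁻¹ * b, ?_⟩
  rw [map_mul, map_inv₀, map_pow, ha, hb, ← h, ← mul_assoc,
    inv_mul_cancel₀ (pow_ne_zero _ hs0), one_mul]

lemma pow_SG (hG : GHE k O M Y K G Ω ι ρ T m z) {M₀ : Submodule k Y}
    (hM : Submodule.span M (ι '' (M₀ : Set Y)) = SG M z) (n : ℕ) :
    ∀ x ∈ M₀ ^ n, ι x ∈ SG M z ^ n := by
  induction n with
  | zero =>
    intro x hx
    rw [pow_zero, Submodule.mem_one] at hx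
    obtain ⟨c, rfl⟩ := hx
    rw [AlgHom.commutes, pow_zero, Submodule.mem_one]
    exact k_M hG c
  | succ n ih =>
    intro x hx
    rw [pow_succ] at hx ⊢
    induction hx using Submodule.mul_induction_on' with
    | mem_mul_mem a ha b hb =>
      rw [map_mul]
      refine Submodule.mul_mem_mul (ih a ha) ?_
      rw [← hM]
      exact Submodule.subset_span ⟨b, hb, rfl⟩
    | add a _ b _ ha hb =>
      rw [map_add]
      exact Submodule.add_mem _ ha hb

lemma T_sat (hG : GHE k O M Y K G Ω ι ρ T m z) {M₀ : Submodule k Y}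
    (hM : Submodule.span M (ι '' (M₀ : Set Y)) = SG M z) (n : ℕ) (y : Y)
    (hy : ι y ∈ TT M z n) : y ∈ sat (M₀ ^ n) :=
  dsc hG (M₀ ^ n) y (SG_pow hM n (TT_le M n hy))

lemma T_frac (hG : GHE k O M Y K G Ω ι ρ T m z) {s : k} (hs : s ≠ 0) {d : ℕ} {Φ : Ω → K}
    (w : K) (hw : w ∈ TT M z d) : ∃ b : O, b ≠ 0 ∧
      algebraMap O K b * (w / ((∏ ω, Φ ω) * algebraMap k K s)) ∈ CF O z s d Φ := by
  unfold TT at hw
  induction hw using Submodule.span_induction with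
  | mem w hw =>
    obtain ⟨x, hx, rfl⟩ := hw
    refine ⟨1, one_ne_zero, ?_⟩
    have h1 : (∏ ω, x ω) / ((∏ ω, Φ ω) * algebraMap k K s) =
        (∏ ω, x ω / Φ ω) * (algebraMap k K s)⁻¹ := by
      rw [Finset.prod_div_distrib, div_mul_eq_div_div, div_eq_mul_inv _ (algebraMap k K s)]
    rw [map_one, one_mul, h1]
    exact mul_mem (prod_mem fun ω _ => CF_gen ω (hx ω)) (CF_OL (OL_inv (s_ne hG.toGE hs)))
  | zero => exact ⟨1, one_ne_zero, by rw [zero_div, mul_zero]; exact zero_mem _⟩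
  | add w w' _ _ h h' =>
    obtain ⟨b, hb, h⟩ := h
    obtain ⟨b', hb', h'⟩ := h'
    refine ⟨b * b', mul_ne_zero hb hb', ?_⟩
    have h1 := add_mem (mul_mem (CF_OL (OL_alg b')) h) (mul_mem (CF_OL (OL_alg b)) h')
    rw [map_mul, add_div]
    have h2 : algebraMap O K b * algebraMap O K b' *
        (w / ((∏ ω, Φ ω) * algebraMap k K s) + w' / ((∏ ω, Φ ω) * algebraMap k K s)) =
        algebraMap O K b' * (algebraMap O K b * (w / ((∏ ω, Φ ω) * algebraMap k K s))) +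
        algebraMap O K b * (algebraMap O K b' * (w' / ((∏ ω, Φ ω) * algebraMap k K s))) := by
      ring
    rw [h2]
    exact h1
  | smul r w _ h =>
    obtain ⟨b, hb, h⟩ := h
    obtain ⟨a, b', hb', ha⟩ := hG.lf r
    refine ⟨b * b', mul_ne_zero hb hb', ?_⟩
    have h1 := mul_mem (CF_OL (OL_alg a)) h
    have h2 : algebraMap O K (b * b') * (r • w / ((∏ ω, Φ ω) * algebraMap k K s)) =
        algebraMap O K a * (algebraMap O K b * (w / ((∏ ω, Φ ω) * algebraMap k K s))) := by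
      rw [Algebra.smul_def, map_mul, ← ha]
      ring
    rw [h2]
    exact h1

/-- The powers of the product of a family of forms. -/
lemma NF_pow (hG : GHE k O M Y K G Ω ι ρ T m z) {d : ℕ} {Φ : Ω → K}
    (hΦ : ∀ ω, Φ ω ∈ FS k (z ω) d) (N : ℕ) : (∏ ω, Φ ω) ^ N ∈ TT M z (d * N) := by
  have h1 := prod_TT M (k_M hG) (fun ω => Φ ω ^ N) fun ω => FS_pow (z ω) (hΦ ω) N
  rw [Finset.prod_pow] at h1
  exact h1

lemma CF_TT (hG : GHE k O M Y K G Ω ι ρ T m z) {s : k} (hs : s ≠ 0) {d : ℕ} {Φ : Ω → K}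
    (hΦ : Fm k K G Ω ρ z d Φ) (g : K) (hg : g ∈ CF O z s d Φ) :
    ∃ N₀ : ℕ, ∀ N, N₀ ≤ N → (∏ ω, Φ ω) ^ N * g ∈ TT M z (d * N) := by
  classical
  refine CF_ind (P := fun g => ∃ N₀ : ℕ, ∀ N, N₀ ≤ N →
    (∏ ω, Φ ω) ^ N * g ∈ TT M z (d * N)) ?_ ?_ ?_ ?_ g hg
  · intro x hx
    obtain ⟨l, rfl⟩ := OL_M hG hs hx
    refine ⟨0, fun N _ => ?_⟩
    rw [mul_comm _ (algebraMap M K l), ← Algebra.smul_def]
    exact Submodule.smul_mem _ _ (NF_pow hG hΦ.mem N)
  · intro ω₀ x hx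
    refine ⟨1, fun N hN => ?_⟩
    obtain ⟨N, rfl⟩ : ∃ N', N = N' + 1 := ⟨N - 1, by omega⟩
    have h1 : (∏ ω, Φ ω) * (x / Φ ω₀) = ∏ ω, (if ω = ω₀ then x else Φ ω) := by
      rw [← Finset.mul_prod_erase Finset.univ Φ (Finset.mem_univ ω₀),
        ← Finset.mul_prod_erase Finset.univ (fun ω => if ω = ω₀ then x else Φ ω)
          (Finset.mem_univ ω₀), if_pos rfl]
      have h2 : ∏ ω ∈ Finset.univ.erase ω₀, (if ω = ω₀ then x else Φ ω) =
          ∏ ω ∈ Finset.univ.erase ω₀, Φ ω :=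
        Finset.prod_congr rfl fun j hj => by rw [if_neg (Finset.ne_of_mem_erase hj)]
      rw [h2, mul_right_comm, mul_div_cancel₀ _ (hΦ.ne ω₀)]
    rw [pow_succ, mul_assoc, h1, Nat.mul_succ]
    refine TT_mul M (d * N) d (Submodule.mul_mem_mul (NF_pow hG hΦ.mem N) ?_)
    apply prod_TT M (k_M hG)
    intro ω
    split_ifs with hω
    · subst hω
      exact Submodule.subset_span hx
    · exact hΦ.mem ω
  · rintro x y ⟨N₁, h₁⟩ ⟨N₂, h₂⟩
    refine ⟨max N₁ N₂, fun N hN => ?_⟩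
    rw [mul_add]
    exact Submodule.add_mem _ (h₁ N (le_trans (le_max_left _ _) hN))
      (h₂ N (le_trans (le_max_right _ _) hN))
  · rintro x y ⟨N₁, h₁⟩ ⟨N₂, h₂⟩
    refine ⟨N₁ + N₂, fun N hN => ?_⟩
    obtain ⟨N', rfl⟩ : ∃ N', N = N₁ + N' := ⟨N - N₁, by omega⟩
    have h3 := Submodule.mul_mem_mul (h₁ N₁ le_rfl) (h₂ N' (by omega))
    have h4 := TT_mul M _ _ h3
    rw [← Nat.mul_add] at h4
    have h5 : (∏ ω, Φ ω) ^ (N₁ + N') * (x * y) =
        (∏ ω, Φ ω) ^ N₁ * x * ((∏ ω, Φ ω) ^ N' * y) := by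
      rw [pow_add]
      ring
    rw [h5]
    exact h4

end gen

section gr

variable {k O K : Type} [CommRing k] [CommRing O] [Field K] [Algebra k O] [Algebra O K]
  [Algebra k K] [IsScalarTower k O K] {Ω : Type} {m : ℕ} {z : Ω → Fin (m + 1) → K} {s : k}
  {d : ℕ} {Φ : Ω → K}

/-- The degree zero part of a chart. -/
lemma mem_GRG0 {G : Type} [Group G] {ρ : G →* (K ≃ₐ[k] K)} {N : Type}
    {𝔔 : N → Ideal (OL O (K := K) s)} {p l : N → ℕ} (hp : ∀ i, 0 < p i) {τ : N → G} (x : K) :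
    hm 0 x ∈ GRG O ρ z s 𝔔 p l τ d Φ ↔ x ∈ CF O z s d Φ := by
  unfold GRG RG
  rw [Algebra.mem_inf, Algebra.mem_iInf]
  constructor
  · rintro ⟨h1, -⟩
    exact RR_mem_C (fun c hc => hc) h1
  · intro h1
    exact ⟨RR_c one_pos h1, fun i => RR_c (hp i) h1⟩

end gr

/-- **The generic fibre.** -/
theorem t_GMOE : S_RES2 → S_GMOE := by
  intro hR k O M Y Y₂ K K₂ G Ω _ _ _ _ _ _ _ _ _ _ _ _ _ _ _ _ _ _ _ _ _ _ _ ι ι₂ εY ε ρ ρ₂ hE T
    m z hG M₀ hM s N _ 𝔔 p l τ π hπ hs hp d Φ hd hΦ h hh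
  obtain ⟨σ, hσ⟩ := k_M hG s
  have hπ0 : (π : K) ≠ 0 := fun h0 => hπ (Subtype.ext h0)
  have hGr : Gr (GRG O ρ z s 𝔔 p l τ d Φ) := by
    intro f hf d'
    unfold GRG RG at hf ⊢
    rw [Algebra.mem_inf, Algebra.mem_iInf] at hf ⊢
    exact ⟨RR_gr f hf.1 d', fun i => RR_gr f (hf.2 i) d'⟩
  have key := (hR k Y Y₂ K K₂ G ι ι₂ εY ε ρ ρ₂ hE hG.fixK _ hGr (π : K) hπ0).2
  refine ⟨?_, ?_, ?_⟩
  · apply T_sat hG hM
    have h1 := NF_pow hG hΦ.mem 1
    rw [pow_one, mul_one] at h1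
    rw [hh, mul_comm, ← hσ, ← Algebra.smul_def]
    exact Submodule.smul_mem _ _ h1
  · intro x hx
    obtain ⟨b, hb, h1⟩ := T_frac hG hs (Φ := Φ) (ι x) (le_TT M d (pow_SG hG hM d x hx))
    obtain ⟨c, r, hc, hcr⟩ := exists_norm hG.toGE hb
    refine ⟨c, hc, ?_⟩
    unfold GRE
    rw [key, neg_zero, zpow_zero, mul_one, mem_GRG0 hp, map_smul, map_div₀, hh,
      Algebra.smul_def, IsScalarTower.algebraMap_apply k O K, hcr, map_mul,
      mul_comm (algebraMap O K b), mul_assoc]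
    exact mul_mem (CF_OL (OL_alg r)) h1
  · intro f b hf
    unfold GRE at hf
    rw [key, mem_GRG0 hp] at hf
    obtain ⟨μ, hμ⟩ := OL_M hG hs π.2
    have hμ' : algebraMap M K (μ ^ b) = (π : K) ^ b := by rw [map_zpow₀, hμ]
    obtain ⟨N₀, hN⟩ := CF_TT hG hs hΦ _ hf
    refine ⟨N₀, fun N hN' => ?_⟩
    apply T_sat hG hM
    have h1 : ι (h ^ N * f) = (σ ^ N * μ ^ b) • ((∏ ω, Φ ω) ^ N * (ι f * (π : K) ^ (-b))) := by
      rw [map_mul, map_pow, hh, Algebra.smul_def, map_mul, map_pow, hσ, hμ', mul_pow, zpow_neg]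
      have h2 : (π : K) ^ b * ((π : K) ^ b)⁻¹ = 1 := mul_inv_cancel₀ (zpow_ne_zero _ hπ0)
      calc (∏ ω, Φ ω) ^ N * algebraMap k K s ^ N * ι f
          = algebraMap k K s ^ N * ((∏ ω, Φ ω) ^ N * ι f) * 1 := by ring
        _ = algebraMap k K s ^ N * ((∏ ω, Φ ω) ^ N * ι f) * ((π : K) ^ b * ((π : K) ^ b)⁻¹) := by
            rw [h2]
        _ = _ := by ring
    rw [h1]
    exact Submodule.smul_mem _ _ (hN N hN')

end Pool.Agent.Y532.H
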